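import Pool.Graph.R_seed8.TH719.HHq.Fields2
import Pool.Graph.R_seed8.H737R3.Points
import Pool.Graph.R_seed8.H737R3.Cont.Main

/-!
# Containments of symbolic powers of ideals of points, generator degrees
-/

set_option autoImplicit false

universe u

namespace Pool.Agent.H1.SP

open MvPolynomial Pool.Agent.Chud Pool.Agent.H737R3 Pool.Agent.H737R3.Cont Pool.Agent.H915R3.ContT2
open Pool.Agent.TH719.HHq (ptI mxI)

variable {K : Type u} [Field K] {n s : ℕ}

theorem ptI_eq {q : Fin (n + 1) → K} (hq : q ≠ 0) : ptI q = linI q := span_eq_linI hq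

/-- the containment in the ordinary power, over every field -/
theorem hh (hn : 2 ≤ n) (hs : 0 < s) {t : ℕ} (ht : 0 < t) (P : Fin s → Fin (n + 1) → K)
    (hP : ∀ i, P i ≠ 0) (m : ℕ) :
    (⨅ i, ptI (P i) ^ (t * (m + n - 1))) ≤ (⨅ i, ptI (P i) ^ m) ^ t := by
  obtain ⟨p, hp⟩ := CharP.exists K
  rcases CharP.char_is_prime_or_zero K p with h | h
  · have : Fact p.Prime := ⟨h⟩
    have h1 := Pool.Agent.TH719.HHq.f_all p hn hs ht (c := t + 1) (by omega)
      (by
        have : t * 1 ≤ n * (t + 1) := by nlinarith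
        omega) P hP (fun _ => m)
    exact h1.trans Ideal.mul_le_right
  · subst h
    have : CharZero K := CharP.charP_to_charZero K
    have h1 := Pool.Agent.H737R3.Cont.cont hn hs ht P hP (fun _ => m)
    simp only [ptI_eq (hP _)]
    exact h1.trans Ideal.mul_le_right

/-- lower bound for the degrees of the forms of the symbolic powers, over every field -/
theorem low (hn : 2 ≤ n) (hs : 0 < s) {t m a : ℕ} (hm : 0 < m)
    (P : Fin s → Fin (n + 1) → K) (hP : ∀ i, P i ≠ 0)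
    (ha : ∀ f ∈ (⨅ i, ptI (P i) ^ m), f ≠ 0 → ∀ l, f.IsHomogeneous l → a ≤ l)
    {G : MvPolynomial (Fin (n + 1)) K} {d : ℕ} (hG0 : G ≠ 0) (hGd : G.IsHomogeneous d)
    (hG : G ∈ (⨅ i, ptI (P i) ^ (t * (m + n - 1)))) : t * (a + n - 1) ≤ d := by
  have h1 := demailly_fat K n m a (t * (m + n - 1)) d (Set.range P) (fun _ => 1) G (by omega) hm
    (Set.finite_range P) ⟨P ⟨0, hs⟩, ⟨_, rfl⟩, le_rfl⟩
    (by rintro _ ⟨i, rfl⟩; exact hP i)
    (by
      intro f l hf0 hfl hfm
      apply ha f _ hf0 l hfl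
      rw [Submodule.mem_iInf]
      intro i
      rw [ptI_eq (hP i)]
      have := hfm (P i) ⟨i, rfl⟩
      beta_reduce at this
      rw [mul_one] at this
      exact mem_linI_pow hfl (hP i) this) hG0 hGd
    (by
      rintro _ ⟨i, rfl⟩
      rw [Submodule.mem_iInf] at hG
      have := hG i
      rw [ptI_eq (hP i)] at this
      rw [mul_one]
      exact Ideal.pow_right_mono (linI_le_mI _) _ this)
  have h2 : (m + n - 1) * (t * (a + n - 1)) ≤ (m + n - 1) * d := by
    calc (m + n - 1) * (t * (a + n - 1)) = t * (m + n - 1) * (a + n - 1) := by ring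
      _ ≤ d * (m + n - 1) := h1
      _ = (m + n - 1) * d := by ring
  exact Nat.le_of_mul_le_mul_left h2 (by omega)

/-- **containment, generator degrees** -/
theorem gen (hn : 2 ≤ n) (hs : 0 < s) {t m a b : ℕ} (ht : 0 < t) (hm : 0 < m)
    (P : Fin s → Fin (n + 1) → K) (hP : ∀ i, P i ≠ 0)
    (ha : ∀ f ∈ (⨅ i, ptI (P i) ^ m), f ≠ 0 → ∀ l, f.IsHomogeneous l → a ≤ l)
    (hb : (⨅ i, ptI (P i) ^ m) ≤
      Ideal.span {f | f ∈ (⨅ i, ptI (P i) ^ m) ∧ ∃ l ≤ b, f.IsHomogeneous l}) :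
    (⨅ i, ptI (P i) ^ (t * (m + n - 1))) ≤
      mxI K n ^ (t * (a + n - 1 - b)) * (⨅ i, ptI (P i) ^ m) ^ t := by
  have hJ : (⨅ i, ptI (P i) ^ m) =
      Ideal.span {f | f ∈ (⨅ i, ptI (P i) ^ m) ∧ ∃ l ≤ b, f.IsHomogeneous l} := by
    apply le_antisymm hb
    rw [Ideal.span_le]
    rintro f ⟨hf, -⟩
    exact hf
  have hPr : Pr (⨅ i, ptI (P i) ^ m) b := by
    rw [hJ]
    apply Pr_span
    rintro f ⟨-, hf⟩
    exact hf
  intro F hF
  rw [← sum_homogeneousComponent F]
  apply Ideal.sum_mem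
  intro d _
  set G := homogeneousComponent d F with hGdef
  have hGd : G.IsHomogeneous d := homogeneousComponent_isHomogeneous d F
  have hG : G ∈ (⨅ i, ptI (P i) ^ (t * (m + n - 1))) := by
    rw [Submodule.mem_iInf] at hF ⊢
    intro i
    have := hF i
    rw [ptI_eq (hP i)] at this ⊢
    exact component_mem (P i) _ this d
  by_cases hG0 : G = 0
  · rw [hG0]
    exact Ideal.zero_mem _
  have h1 := low hn hs hm P hP ha hG0 hGd hG
  have h2 := Pr_pow hPr t G (hh hn hs ht P hP m hG) d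
  rw [homogeneousComponent_of_mem hGd, if_pos rfl] at h2
  have h3 : t * (a + n - 1 - b) ≤ d - t * b := by
    rw [Nat.mul_sub]
    omega
  exact Ideal.mul_mono (Ideal.pow_le_pow_right h3) le_rfl h2

end Pool.Agent.H1.SP
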