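import Pool.Agent.H1.SP.Gen

/-!
# Points imposing independent conditions: generators of the ideal
-/

set_option autoImplicit false

universe u

namespace Pool.Agent.H1.SP

open MvPolynomial Pool.Agent.Chud Pool.Agent.H737R3 Pool.Agent.H737R3.Cont Pool.Agent.H915R3.ContT2
open Pool.Agent.TH719.HHq (ptI mxI)

variable {K : Type u} [Field K] {n s : ℕ}

theorem mem_I_iff (P : Fin s → Fin (n + 1) → K) (hP : ∀ i, P i ≠ 0)
    {f : MvPolynomial (Fin (n + 1)) K} {l : ℕ} (hf : f.IsHomogeneous l) :
    f ∈ (⨅ i, ptI (P i) ^ 1) ↔ ∀ i, eval (P i) f = 0 := by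
  rw [Submodule.mem_iInf]
  constructor
  · intro h i
    have h1 := h i
    rw [ptI_eq (hP i), pow_one] at h1
    exact linI_le_mI _ h1
  · intro h i
    rw [ptI_eq (hP i)]
    apply mem_linI_pow hf (hP i)
    rw [pow_one]
    exact h i

/-- a form of positive degree is a combination of the variables -/
theorem decomp {f : MvPolynomial (Fin (n + 1)) K} {l : ℕ} (hf : f.IsHomogeneous (l + 1)) :
    ∃ g : Fin (n + 1) → MvPolynomial (Fin (n + 1)) K, (∀ i, (g i).IsHomogeneous l) ∧
      f = ∑ i, X i * g i := by
  have h1 : f ∈ irr K n := by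
    have := homog_mem_irr hf
    exact Ideal.pow_le_self (by omega) this
  unfold irr at h1
  rw [Ideal.mem_span_range_iff_exists_fun] at h1
  obtain ⟨c, hc⟩ := h1
  refine ⟨fun i => homogeneousComponent l (c i),
    fun i => homogeneousComponent_isHomogeneous l (c i), ?_⟩
  have h2 : homogeneousComponent (l + 1) f = f := by
    rw [homogeneousComponent_of_mem hf, if_pos rfl]
  rw [← h2, ← hc, map_sum]
  apply Finset.sum_congr rfl
  intro i _
  rw [mul_comm (c i), homogeneousComponent_X_mul]

/-- separators of the points in degree `e` -/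
def Sep (P : Fin s → Fin (n + 1) → K) (e : ℕ) : Prop :=
  ∀ i, ∃ f : MvPolynomial (Fin (n + 1)) K, f.IsHomogeneous e ∧ eval (P i) f ≠ 0 ∧
    ∀ j, j ≠ i → eval (P j) f = 0

theorem sep_up (P : Fin s → Fin (n + 1) → K) (hP : ∀ i, P i ≠ 0) {e l : ℕ} (h : Sep P e)
    (hl : e ≤ l) : ∀ i, ∃ f : MvPolynomial (Fin (n + 1)) K, f.IsHomogeneous l ∧
      eval (P i) f = 1 ∧ ∀ j, j ≠ i → eval (P j) f = 0 := by
  intro i
  obtain ⟨f, hf, hf1, hf2⟩ := h i
  obtain ⟨k, hk⟩ := Function.ne_iff.1 (hP i)
  have hk' : P i k ≠ 0 := hk
  have hne : eval (P i) (X k ^ (l - e) * f) ≠ 0 := by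
    rw [map_mul, map_pow, eval_X]
    exact mul_ne_zero (pow_ne_zero _ hk') hf1
  refine ⟨C (eval (P i) (X k ^ (l - e) * f))⁻¹ * (X k ^ (l - e) * f), ?_, ?_, ?_⟩
  · have h1 : (X k ^ (l - e) * f).IsHomogeneous ((l - e) + e) := by
      have := ((isHomogeneous_X K k).pow (l - e)).mul hf
      rwa [one_mul] at this
    have h2 := (isHomogeneous_C (Fin (n + 1)) ((eval (P i) (X k ^ (l - e) * f))⁻¹)).mul h1
    have e1 : 0 + ((l - e) + e) = l := by omega
    rwa [e1] at h2
  · rw [map_mul, eval_C, inv_mul_cancel₀ hne]
  · intro j hj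
    rw [map_mul, map_mul (eval (P j)) (X k ^ (l - e)) f, hf2 j hj, mul_zero, mul_zero]

/-- if the points have separators in degree `e` then their ideal is generated in degree
`≤ e + 1` -/
theorem gen_of_sep (P : Fin s → Fin (n + 1) → K) (hP : ∀ i, P i ≠ 0) {e : ℕ} (h : Sep P e) :
    (⨅ i, ptI (P i) ^ 1) ≤
      Ideal.span {f | f ∈ (⨅ i, ptI (P i) ^ 1) ∧ ∃ l ≤ e + 1, f.IsHomogeneous l} := by
  classical
  -- homogeneous elements
  have key : ∀ (l : ℕ) (f : MvPolynomial (Fin (n + 1)) K), f.IsHomogeneous l →
      f ∈ (⨅ i, ptI (P i) ^ 1) →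
      f ∈ Ideal.span {f | f ∈ (⨅ i, ptI (P i) ^ 1) ∧ ∃ l ≤ e + 1, f.IsHomogeneous l} := by
    intro l
    induction l with
    | zero =>
      intro f hf hfI
      exact Ideal.subset_span ⟨hfI, 0, by omega, hf⟩
    | succ l ih =>
      intro f hf hfI
      rcases Nat.lt_or_ge e l with hel | hel
      swap
      · exact Ideal.subset_span ⟨hfI, l + 1, by omega, hf⟩
      obtain ⟨g, hg, hfg⟩ := decomp hf
      obtain ⟨l', rfl⟩ : ∃ l', l = l' + 1 := ⟨l - 1, by omega⟩
      choose σ hσ hσ1 hσ2 using sep_up P hP h (by omega : e ≤ l')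
      choose κ hκ using fun i => Function.ne_iff.1 (hP i)
      have hκ' : ∀ j, P j (κ j) ≠ 0 := fun j => hκ j
      -- the linear forms
      set L : Fin s → MvPolynomial (Fin (n + 1)) K :=
        fun j => ∑ k, C (eval (P j) (g k)) * X k with hL
      have hLh : ∀ j, (L j).IsHomogeneous 1 := by
        intro j
        apply IsHomogeneous.sum
        intro k _
        have := (isHomogeneous_C (Fin (n + 1)) (eval (P j) (g k))).mul (isHomogeneous_X K k)
        rwa [zero_add] at this
      have hLv : ∀ j, eval (P j) (L j) = 0 := by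
        intro j
        have h1 := (mem_I_iff P hP hf).1 hfI j
        rw [hfg, map_sum] at h1
        rw [hL]
        simp only [map_sum, map_mul, eval_C, eval_X]
        rw [← h1]
        apply Finset.sum_congr rfl
        intro k _
        rw [map_mul, eval_X, mul_comm]
      set T : Fin s → Fin (n + 1) → MvPolynomial (Fin (n + 1)) K := fun j i =>
        C (P j (κ j))⁻¹ * (C (eval (P j) (g i)) * X (κ j) - (if i = κ j then L j else 0)) with hT
      have hTh : ∀ j i, (T j i).IsHomogeneous 1 := by
        intro j i
        have h1 : (C (eval (P j) (g i)) * X (κ j) - (if i = κ j then L j else 0) :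
            MvPolynomial (Fin (n + 1)) K).IsHomogeneous 1 := by
          apply IsHomogeneous.sub
          · have := (isHomogeneous_C (Fin (n + 1)) (eval (P j) (g i))).mul
              (isHomogeneous_X K (κ j))
            rwa [zero_add] at this
          · split_ifs
            · exact hLh j
            · exact isHomogeneous_zero _ _ _
        have := (isHomogeneous_C (Fin (n + 1)) (P j (κ j))⁻¹).mul h1
        rwa [zero_add] at this
      have hTv : ∀ j i, eval (P j) (T j i) = eval (P j) (g i) := by
        intro j i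
        rw [hT]
        simp only [map_mul, map_sub, eval_C, eval_X]
        have : eval (P j) (if i = κ j then L j else 0) = 0 := by
          split_ifs
          · exact hLv j
          · exact map_zero _
        rw [this, sub_zero, mul_comm (eval (P j) (g i)), ← mul_assoc, inv_mul_cancel₀ (hκ' j),
          one_mul]
      have hTs : ∀ j, ∑ i, X i * T j i = 0 := by
        intro j
        have h1 : ∀ i, X i * T j i = C (P j (κ j))⁻¹ *
            (X (κ j) * (C (eval (P j) (g i)) * X i) - (if i = κ j then X i * L j else 0)) := by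
          intro i
          simp only [hT]
          by_cases hik : i = κ j
          · simp only [if_pos hik]; ring
          · simp only [if_neg hik]; ring
        simp only [h1]
        rw [← Finset.mul_sum, Finset.sum_sub_distrib, ← Finset.mul_sum,
          Finset.sum_ite_eq' Finset.univ (κ j), if_pos (Finset.mem_univ _)]
        simp only [hL, sub_self, mul_zero]
      -- the corrected coefficients
      have hg' : ∀ i, (g i - ∑ j, σ j * T j i) ∈ (⨅ i, ptI (P i) ^ 1) ∧
          (g i - ∑ j, σ j * T j i).IsHomogeneous (l' + 1) := by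
        intro i
        have h1 : (g i - ∑ j, σ j * T j i).IsHomogeneous (l' + 1) := by
          apply (hg i).sub
          apply IsHomogeneous.sum
          intro j _
          exact (hσ j).mul (hTh j i)
        refine ⟨(mem_I_iff P hP h1).2 ?_, h1⟩
        intro j0
        rw [map_sub, map_sum, Finset.sum_eq_single j0]
        · rw [map_mul, hσ1, one_mul, hTv, sub_self]
        · intro j _ hj
          rw [map_mul, hσ2 j j0 (Ne.symm hj), zero_mul]
        · intro h
          exact absurd (Finset.mem_univ _) h
      have hff : f = ∑ i, X i * (g i - ∑ j, σ j * T j i) := by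
        simp only [mul_sub, Finset.sum_sub_distrib, Finset.mul_sum]
        rw [Finset.sum_comm]
        have h2 : ∀ j, ∑ i, X i * (σ j * T j i) = σ j * ∑ i, X i * T j i := by
          intro j
          rw [Finset.mul_sum]
          apply Finset.sum_congr rfl
          intro i _
          ring
        simp only [h2, hTs, mul_zero, Finset.sum_const_zero, sub_zero]
        exact hfg
      rw [hff]
      apply Ideal.sum_mem
      intro i _
      exact Ideal.mul_mem_left _ _ (ih _ (hg' i).2 (hg' i).1)
  intro F hF
  rw [← sum_homogeneousComponent F]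
  apply Ideal.sum_mem
  intro d _
  apply key d _ (homogeneousComponent_isHomogeneous d F)
  rw [Submodule.mem_iInf] at hF ⊢
  intro i
  have := hF i
  rw [ptI_eq (hP i)] at this ⊢
  exact component_mem (P i) _ this d

end Pool.Agent.H1.SP
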